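import Pool.Agent.H19.STAT.Sys

/-!
# Row 105 NRM: the weighted norm
-/

set_option autoImplicit false

namespace Pool.STAT

open Finset MvPolynomial

namespace NRM

variable (d : ℕ → ℕ) {ρ : ℝ}

theorem term_nonneg (hρ : 0 < ρ) (F : PN) (k : ℕ →₀ ℕ) :
    0 ≤ |F.coeff k| * ρ ^ Finsupp.weight d k :=
  mul_nonneg (abs_nonneg _) (pow_nonneg hρ.le _)

theorem nrm_nonneg (hρ : 0 < ρ) (F : PN) : 0 ≤ nrm d ρ F :=
  sum_nonneg fun k _ => term_nonneg d hρ F k

theorem nrm_eq (ρ : ℝ) (F : PN) (s : Finset (ℕ →₀ ℕ)) (hs : F.support ⊆ s) :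
    nrm d ρ F = ∑ k ∈ s, |F.coeff k| * ρ ^ Finsupp.weight d k := by
  unfold nrm
  refine sum_subset hs fun k _ hk => ?_
  rw [MvPolynomial.notMem_support_iff.mp hk]
  simp

theorem nrm_mono {ρ' : ℝ} {a : ℝ} (F G : PN)
    (h : ∀ k, |F.coeff k| * ρ ^ Finsupp.weight d k ≤
      a * (|G.coeff k| * ρ' ^ Finsupp.weight d k)) :
    nrm d ρ F ≤ a * nrm d ρ' G := by
  rw [nrm_eq d ρ F (F.support ∪ G.support) subset_union_left,
    nrm_eq d ρ' G (F.support ∪ G.support) subset_union_right, mul_sum]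
  exact sum_le_sum fun k _ => h k

theorem nrm_dom (F G : PN) (hρ : 0 < ρ) (h : ∀ k, |F.coeff k| ≤ |G.coeff k|) :
    nrm d ρ F ≤ nrm d ρ G := by
  have := nrm_mono (ρ := ρ) (ρ' := ρ) d F G (fun k => by
    rw [one_mul]
    exact mul_le_mul_of_nonneg_right (h k) (pow_nonneg hρ.le _))
  rwa [one_mul] at this

theorem nrm_add (hρ : 0 < ρ) (F G : PN) : nrm d ρ (F + G) ≤ nrm d ρ F + nrm d ρ G := by
  rw [nrm_eq d ρ (F + G) (F.support ∪ G.support) support_add,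
    nrm_eq d ρ F (F.support ∪ G.support) subset_union_left,
    nrm_eq d ρ G (F.support ∪ G.support) subset_union_right, ← sum_add_distrib]
  refine sum_le_sum fun k _ => ?_
  rw [coeff_add, ← add_mul]
  exact mul_le_mul_of_nonneg_right (abs_add_le _ _) (pow_nonneg hρ.le _)

theorem nrm_zero (ρ : ℝ) : nrm d ρ 0 = 0 := by
  unfold nrm
  simp

theorem nrm_neg (ρ : ℝ) (F : PN) : nrm d ρ (-F) = nrm d ρ F := by
  unfold nrm
  rw [support_neg]
  refine sum_congr rfl fun k _ => ?_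
  rw [coeff_neg, abs_neg]

theorem nrm_sum (hρ : 0 < ρ) {ι : Type*} (s : Finset ι) (f : ι → PN) :
    nrm d ρ (∑ i ∈ s, f i) ≤ ∑ i ∈ s, nrm d ρ (f i) := by
  classical
  induction s using Finset.induction_on with
  | empty => simp [nrm_zero]
  | insert a s ha ih =>
    rw [sum_insert ha, sum_insert ha]
    exact (nrm_add d hρ _ _).trans (add_le_add_right ih _)

theorem nrm_monomial (ρ : ℝ) (k : ℕ →₀ ℕ) (a : ℝ) :
    nrm d ρ (monomial k a) = |a| * ρ ^ Finsupp.weight d k := by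
  classical
  rw [nrm_eq d ρ (monomial k a) {k} support_monomial_subset, sum_singleton, coeff_monomial,
    if_pos rfl]

theorem nrm_C (ρ : ℝ) (a : ℝ) : nrm d ρ (C a) = |a| := by
  have h : (C a : PN) = monomial 0 a := rfl
  rw [h, nrm_monomial, map_zero, pow_zero, mul_one]

theorem nrm_X (ρ : ℝ) (i : ℕ) : nrm d ρ (X i) = ρ ^ d i := by
  have h : (X i : PN) = monomial (Finsupp.single i 1) 1 := rfl
  rw [h, nrm_monomial, abs_one, one_mul, Finsupp.weight_single, one_smul]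

theorem nrm_mul (hρ : 0 < ρ) (F G : PN) : nrm d ρ (F * G) ≤ nrm d ρ F * nrm d ρ G := by
  have h1 : F * G = ∑ k ∈ F.support, ∑ l ∈ G.support,
      monomial (k + l) (F.coeff k * G.coeff l) := by
    conv_lhs => rw [F.as_sum, G.as_sum, sum_mul_sum]
    refine sum_congr rfl fun k _ => sum_congr rfl fun l _ => ?_
    rw [monomial_mul]
  have h2 : nrm d ρ F * nrm d ρ G = ∑ k ∈ F.support, ∑ l ∈ G.support,
      (|F.coeff k| * ρ ^ Finsupp.weight d k) * (|G.coeff l| * ρ ^ Finsupp.weight d l) := by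
    unfold nrm
    rw [sum_mul_sum]
  rw [h1, h2]
  refine (nrm_sum d hρ _ _).trans (sum_le_sum fun k _ => (nrm_sum d hρ _ _).trans
    (sum_le_sum fun l _ => ?_))
  rw [nrm_monomial, map_add, pow_add, abs_mul]
  exact le_of_eq (by ring)

theorem nrm_pow (hρ : 0 < ρ) (F : PN) (n : ℕ) : nrm d ρ (F ^ n) ≤ nrm d ρ F ^ n := by
  induction n with
  | zero =>
    rw [pow_zero, pow_zero]
    have h : (1 : PN) = C 1 := by simp
    rw [h, nrm_C, abs_one]
  | succ n ih =>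
    rw [pow_succ, pow_succ]
    exact (nrm_mul d hρ _ _).trans (mul_le_mul_of_nonneg_right ih (nrm_nonneg d hρ _))

theorem nrm_prod (hρ : 0 < ρ) {ι : Type*} (s : Finset ι) (f : ι → PN) :
    nrm d ρ (∏ i ∈ s, f i) ≤ ∏ i ∈ s, nrm d ρ (f i) := by
  classical
  induction s using Finset.induction_on with
  | empty =>
    rw [prod_empty, prod_empty]
    have h : (1 : PN) = C 1 := by simp
    rw [h, nrm_C, abs_one]
  | insert a s ha ih =>
    rw [prod_insert ha, prod_insert ha]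
    exact (nrm_mul d hρ _ _).trans (mul_le_mul_of_nonneg_left ih (nrm_nonneg d hρ _))

theorem coeff_trw (r : ℕ) (F : PN) (k : ℕ →₀ ℕ) :
    (trw d r F).coeff k = if Finsupp.weight d k < r then F.coeff k else 0 := by
  classical
  unfold trw
  rw [coeff_sum]
  by_cases h : Finsupp.weight d k < r
  · rw [if_pos h, sum_eq_single (Finsupp.weight d k)]
    · rw [coeff_weightedHomogeneousComponent, if_pos rfl]
    · intro j _ hj
      rw [coeff_weightedHomogeneousComponent, if_neg (Ne.symm hj)]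
    · intro hn
      exact absurd (mem_range.mpr h) hn
  · rw [if_neg h]
    refine sum_eq_zero fun j hj => ?_
    rw [coeff_weightedHomogeneousComponent, if_neg]
    rintro rfl
    exact h (mem_range.mp hj)

theorem coeff_gew (r : ℕ) (F : PN) (k : ℕ →₀ ℕ) :
    (gew d r F).coeff k = if Finsupp.weight d k < r then 0 else F.coeff k := by
  unfold gew
  rw [coeff_sub, coeff_trw]
  split_ifs <;> simp

theorem nrm_trw (hρ : 0 < ρ) (r : ℕ) (F : PN) : nrm d ρ (trw d r F) ≤ nrm d ρ F := by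
  refine nrm_dom d _ _ hρ fun k => ?_
  rw [coeff_trw]
  split_ifs
  · exact le_rfl
  · rw [abs_zero]
    exact abs_nonneg _

theorem nrm_gew (hρ : 0 < ρ) (r : ℕ) (F : PN) : nrm d ρ (gew d r F) ≤ nrm d ρ F := by
  refine nrm_dom d _ _ hρ fun k => ?_
  rw [coeff_gew]
  split_ifs
  · rw [abs_zero]
    exact abs_nonneg _
  · exact le_rfl

theorem nrm_whc (hρ : 0 < ρ) (r : ℕ) (F : PN) :
    nrm d ρ (weightedHomogeneousComponent d r F) ≤ nrm d ρ F := by
  classical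
  refine nrm_dom d _ _ hρ fun k => ?_
  rw [coeff_weightedHomogeneousComponent]
  split_ifs
  · exact le_rfl
  · rw [abs_zero]
    exact abs_nonneg _

theorem pow_weight {ρ : ℝ} (k : ℕ →₀ ℕ) :
    ρ ^ Finsupp.weight d k = ∏ i ∈ k.support, (ρ ^ d i) ^ k i := by
  rw [Finsupp.weight_apply, Finsupp.sum, ← prod_pow_eq_pow_sum]
  refine prod_congr rfl fun i _ => ?_
  rw [smul_eq_mul, mul_comm, pow_mul]

theorem nrm_bind (hρ : 0 < ρ) (χ : ℕ → PN) (F : PN) (ρ' : ℝ) (_hρ' : 0 < ρ')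
    (h : ∀ i ∈ F.vars, nrm d ρ (χ i) ≤ ρ' ^ d i) :
    nrm d ρ (bind₁ χ F) ≤ nrm d ρ' F := by
  have h1 : bind₁ χ F = ∑ k ∈ F.support, C (F.coeff k) * ∏ i ∈ k.support, χ i ^ k i := by
    rw [bind₁, aeval_def, eval₂_eq]
    rfl
  rw [h1]
  refine (nrm_sum d hρ _ _).trans (sum_le_sum fun k hk => ?_)
  refine (nrm_mul d hρ _ _).trans ?_
  rw [nrm_C, pow_weight d k]
  refine mul_le_mul_of_nonneg_left ?_ (abs_nonneg _)
  refine (nrm_prod d hρ _ _).trans (prod_le_prod (fun i _ => nrm_nonneg d hρ _) fun i hi => ?_)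
  refine (nrm_pow d hρ _ _).trans (pow_le_pow_left₀ (nrm_nonneg d hρ _) (h i ?_) _)
  exact (mem_vars_iff_mem_support i).mpr ⟨k, hk, hi⟩

theorem nrm_gew_scale (hρ : 0 < ρ) (r : ℕ) (F : PN) (ρ' : ℝ) (h : ρ ≤ ρ') :
    nrm d ρ (gew d r F) ≤ (ρ / ρ') ^ r * nrm d ρ' F := by
  have hρ' : 0 < ρ' := hρ.trans_le h
  refine nrm_mono d _ _ fun k => ?_
  rw [coeff_gew]
  split_ifs with hk
  · rw [abs_zero, zero_mul]
    exact mul_nonneg (pow_nonneg (div_nonneg hρ.le hρ'.le) _) (term_nonneg d hρ' F k)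
  · have h1 : (ρ / ρ') ^ Finsupp.weight d k ≤ (ρ / ρ') ^ r :=
      pow_le_pow_of_le_one (div_nonneg hρ.le hρ'.le) ((div_le_one hρ').mpr h) (not_lt.mp hk)
    have h2 : ρ ^ Finsupp.weight d k =
        (ρ / ρ') ^ Finsupp.weight d k * ρ' ^ Finsupp.weight d k := by
      rw [← mul_pow, div_mul_cancel₀ _ hρ'.ne']
    calc |F.coeff k| * ρ ^ Finsupp.weight d k
        = (ρ / ρ') ^ Finsupp.weight d k *
          (|F.coeff k| * ρ' ^ Finsupp.weight d k) := by rw [h2]; ring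
      _ ≤ _ := mul_le_mul_of_nonneg_right h1 (term_nonneg d hρ' F k)

theorem nrm_trw_scale (hρ : 0 < ρ) (r : ℕ) (F : PN) (ρ' : ℝ) (h : ρ ≤ ρ') :
    nrm d ρ' (trw d (r + 1) F) ≤ (ρ' / ρ) ^ r * nrm d ρ F := by
  have hρ' : 0 < ρ' := hρ.trans_le h
  refine nrm_mono d _ _ fun k => ?_
  rw [coeff_trw]
  split_ifs with hk
  · have h1 : (ρ' / ρ) ^ Finsupp.weight d k ≤ (ρ' / ρ) ^ r :=
      pow_le_pow_right₀ ((one_le_div hρ).mpr h) (Nat.lt_succ_iff.mp hk)
    have h2 : ρ' ^ Finsupp.weight d k =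
        (ρ' / ρ) ^ Finsupp.weight d k * ρ ^ Finsupp.weight d k := by
      rw [← mul_pow, div_mul_cancel₀ _ hρ.ne']
    calc |F.coeff k| * ρ' ^ Finsupp.weight d k
        = (ρ' / ρ) ^ Finsupp.weight d k *
          (|F.coeff k| * ρ ^ Finsupp.weight d k) := by rw [h2]; ring
      _ ≤ _ := mul_le_mul_of_nonneg_right h1 (term_nonneg d hρ F k)
  · rw [abs_zero, zero_mul]
    exact mul_nonneg (pow_nonneg (div_nonneg hρ'.le hρ.le) _) (term_nonneg d hρ F k)

theorem abs_eval_le (b : ℕ → ℝ) (F : PN) (h : ∀ i ∈ F.vars, |b i| ≤ ρ ^ d i) :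
    |eval b F| ≤ nrm d ρ F := by
  rw [eval_eq]
  refine (abs_sum_le_sum_abs _ _).trans (sum_le_sum fun k hk => ?_)
  rw [abs_mul, abs_prod, pow_weight d k]
  refine mul_le_mul_of_nonneg_left (prod_le_prod (fun i _ => abs_nonneg _) fun i hi => ?_)
    (abs_nonneg _)
  rw [abs_pow]
  exact pow_le_pow_left₀ (abs_nonneg _) (h i ((mem_vars_iff_mem_support i).mpr ⟨k, hk, hi⟩)) _

end NRM

/-- **Row 105 NRM.** -/
theorem nrm_thm : NrmStmt := fun d _ _ hρ =>
  ⟨NRM.nrm_nonneg d hρ, NRM.nrm_add d hρ, NRM.nrm_neg d _, NRM.nrm_mul d hρ, NRM.nrm_C d _,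
    NRM.nrm_X d _, NRM.nrm_trw d hρ, NRM.nrm_gew d hρ, NRM.nrm_whc d hρ, NRM.nrm_bind d hρ,
    NRM.nrm_gew_scale d hρ, NRM.nrm_trw_scale d hρ, NRM.abs_eval_le d⟩

end Pool.STAT
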