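import Pool.Agent.H64.STAT.Cb
import Pool.Agent.H64.STAT.Rows

/-!
# Row FLW2: bounds for the end point of a walk
-/

set_option autoImplicit false

namespace Pool.STAT

open Finset MvPolynomial
open Pool.BFL (Pl CB)

namespace FLW2

variable {c n M : ℕ}

/-- Weighted homogeneous polynomials with positive weights: the total degree. -/
theorem totalDegree_le_of_wh {d : Fin c → ℕ} (hd : ∀ i, 1 ≤ d i) {P : Pl c} {m : ℕ}
    (h : P.IsWeightedHomogeneous d m) : P.totalDegree ≤ m := by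
  classical
  rw [totalDegree]
  refine Finset.sup_le fun e he => ?_
  have h1 : Finsupp.weight d e = m := h (mem_support_iff.1 he)
  rw [Finsupp.weight_apply] at h1
  rw [← h1]
  refine Finset.sum_le_sum fun i _ => ?_
  change e i ≤ e i • d i
  rw [smul_eq_mul]
  exact Nat.le_mul_of_pos_right _ (hd i)

theorem PB.const_mul {K : ℕ} {R : ℝ} {P : Pl c} (hR : 1 ≤ R) (h : PB K R P) {a : ℝ}
    (ha : |a| ≤ 1) : PB K R (C a * P) := by
  refine ⟨(totalDegree_mul _ _).trans ?_, cb_mono (cb_C_mul a h.2) ?_⟩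
  · rw [totalDegree_C, zero_add]
    exact h.1
  · calc |a| * (K * R ^ K) ≤ 1 * (K * R ^ K) :=
          mul_le_mul_of_nonneg_right ha (kr_nonneg K hR)
      _ = K * R ^ K := one_mul _

theorem PB.X {R : ℝ} (hR : 1 ≤ R) (i : Fin c) : PB 1 R (MvPolynomial.X i : Pl c) := by
  classical
  refine ⟨?_, fun k => ?_⟩
  · rw [totalDegree_X]
  · rw [coeff_X]
    simp only [Nat.cast_one, pow_one, one_mul]
    split_ifs
    · rw [abs_one]
      exact hR
    · rw [abs_zero]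
      linarith

theorem PB.zero {K : ℕ} {R : ℝ} (hR : 1 ≤ R) : PB K R (0 : Pl c) :=
  ⟨by rw [totalDegree_zero]; exact Nat.zero_le _, cb_zero (kr_nonneg K hR)⟩

/-- Powers. -/
theorem pb_pow (c K m : ℕ) : ∃ K' : ℕ, ∀ R : ℝ, 1 ≤ R → ∀ P : Pl c,
    PB K R P → PB K' R (P ^ m) := by
  obtain ⟨K', h⟩ := pb_prod c m K
  refine ⟨K', fun R hR P hP => ?_⟩
  have h1 := h R hR (fun _ => P) fun _ => hP
  simpa using h1

/-- Powers, uniformly in the exponent. -/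
theorem pb_pow_le (c K D : ℕ) : ∃ K' : ℕ, ∀ m ≤ D, ∀ R : ℝ, 1 ≤ R → ∀ P : Pl c,
    PB K R P → PB K' R (P ^ m) := by
  choose f hf using pb_pow c K
  refine ⟨∑ m ∈ range (D + 1), f m, fun m hm R hR P hP => ?_⟩
  refine PB.mono (hf m R hR P hP) ?_ hR
  exact Finset.single_le_sum (f := f) (fun _ _ => Nat.zero_le _)
    (Finset.mem_range.2 (by omega))

/-- Sums over an interval. -/
theorem PB.sum_range {m K : ℕ} {R : ℝ} (hR : 1 ≤ R) (P : ℕ → Pl c)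
    (h : ∀ i < m, PB K R (P i)) : PB (m * K + K) R (∑ i ∈ range m, P i) := by
  rw [Finset.sum_range]
  exact PB.sum hR _ fun i => h i i.2

theorem cb_rename {P : Pl n} {r : ℝ} (hr : 0 ≤ r) (h : CB P r) (f : Fin n → Fin M)
    (hf : Function.Injective f) : CB (rename f P) r := by
  classical
  intro k
  by_cases h1 : ∃ u : Fin n →₀ ℕ, u.mapDomain f = k
  · obtain ⟨u, rfl⟩ := h1
    rw [coeff_rename_mapDomain f hf]
    exact h u
  · rw [coeff_rename_eq_zero f P k fun u hu => absurd ⟨u, hu⟩ h1, abs_zero]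
    exact hr

theorem PB.rename {K : ℕ} {R : ℝ} {P : Pl n} (hR : 1 ≤ R) (h : PB K R P) (f : Fin n → Fin M)
    (hf : Function.Injective f) : PB K R (MvPolynomial.rename f P) :=
  ⟨(totalDegree_rename_le _ _).trans h.1, cb_rename (kr_nonneg K hR) h.2 f hf⟩

/-- The derivation of a vector field. -/
theorem lie_apply (ξ : Fin c → Pl c) (P : Pl c) : lie ξ P = ∑ i, ξ i * pderiv i P := by
  classical
  have hs : ∀ Q : Pl c, (∑ i, ξ i • (pderiv i : Derivation ℝ (Pl c) (Pl c))) Q =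
      ∑ i, ξ i * pderiv i Q := by
    intro Q
    have := map_sum (⟨⟨fun D : Derivation ℝ (Pl c) (Pl c) => D Q, rfl⟩, fun _ _ => rfl⟩ :
      Derivation ℝ (Pl c) (Pl c) →+ Pl c)
      (fun i => ξ i • (pderiv i : Derivation ℝ (Pl c) (Pl c))) Finset.univ
    exact this
  have h1 : lie ξ = ∑ i, ξ i • (pderiv i : Derivation ℝ (Pl c) (Pl c)) := by
    refine derivation_ext fun i => ?_
    rw [lie, mkDerivation_X, hs]
    rw [Finset.sum_eq_single i]
    · rw [pderiv_X_self, mul_one]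
    · intro k _ hk
      rw [pderiv_X_of_ne hk.symm, mul_zero]
    · intro h
      exact absurd (Finset.mem_univ i) h
  rw [h1, hs]

theorem pb_mul (c K K' : ℕ) : ∃ K₁ : ℕ, ∀ R : ℝ, 1 ≤ R → ∀ P Q : Pl c,
    PB K R P → PB K' R Q → PB K₁ R (P * Q) :=
  ⟨_, fun _ hR _ _ hP hQ => PB.mul hR hP hQ⟩

theorem pb_lie (c K K₀ : ℕ) : ∃ K' : ℕ, ∀ R : ℝ, 1 ≤ R → ∀ (ξ : Fin c → Pl c) (P : Pl c),
    (∀ i, PB K₀ R (ξ i)) → PB K R P → PB K' R (lie ξ P) := by
  obtain ⟨K₁, h₁⟩ := pb_mul c K₀ (K * K + K)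
  refine ⟨c * K₁ + K₁, fun R hR ξ P hξ hP => ?_⟩
  rw [lie_apply]
  exact PB.sum hR _ fun i => h₁ R hR _ _ (hξ i) (PB.pderiv hR hP i)

theorem pb_iter (c K K₀ r : ℕ) : ∃ K' : ℕ, ∀ R : ℝ, 1 ≤ R → ∀ (ξ : Fin c → Pl c) (P : Pl c),
    (∀ i, PB K₀ R (ξ i)) → PB K R P → PB K' R ((lie ξ)^[r] P) := by
  induction r with
  | zero => exact ⟨K, fun R hR ξ P _ hP => hP⟩
  | succ r ih =>
    obtain ⟨K₁, h₁⟩ := ih
    obtain ⟨K₂, h₂⟩ := pb_lie c K₁ K₀
    refine ⟨K₂, fun R hR ξ P hξ hP => ?_⟩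
    rw [Function.iterate_succ_apply']
    exact h₂ R hR ξ _ hξ (h₁ R hR ξ P hξ hP)

theorem pb_iter_le (c K K₀ D : ℕ) : ∃ K' : ℕ, ∀ r ≤ D, ∀ R : ℝ, 1 ≤ R →
    ∀ (ξ : Fin c → Pl c) (P : Pl c),
    (∀ i, PB K₀ R (ξ i)) → PB K R P → PB K' R ((lie ξ)^[r] P) := by
  choose f hf using pb_iter c K K₀
  refine ⟨∑ m ∈ range (D + 1), f m, fun m hm R hR ξ P hξ hP => ?_⟩
  refine PB.mono (hf m R hR ξ P hξ hP) ?_ hR
  exact Finset.single_le_sum (f := f) (fun _ _ => Nat.zero_le _)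
    (Finset.mem_range.2 (by omega))

/-- Substitution. -/
theorem pb_bind (c M K K₀ : ℕ) : ∃ K' : ℕ, ∀ R : ℝ, 1 ≤ R → ∀ (P : Pl c) (g : Fin c → Pl M),
    PB K R P → (∀ i, PB K₀ R (g i)) → PB K' R (bind₁ g P) := by
  classical
  obtain ⟨K₁, h₁⟩ := pb_pow_le M K₀ K
  obtain ⟨K₂, h₂⟩ := pb_prod M c K₁
  refine ⟨(K + 1) ^ c * (K * K₂) + (K + K₂), fun R hR P g hP hg => ?_⟩
  have hprod : ∀ e ∈ P.support, PB K₂ R (∏ i, g i ^ e i) := by
    intro e he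
    refine h₂ R hR _ fun i => h₁ (e i) ?_ R hR _ (hg i)
    have h3 : (e.sum fun _ x => x) ≤ P.totalDegree := le_totalDegree he
    have h4 : e i ≤ e.sum fun _ x => x := by
      by_cases hi : e i = 0
      · rw [hi]
        exact Nat.zero_le _
      · exact Finset.single_le_sum (f := fun i => e i) (fun _ _ => Nat.zero_le _)
          (Finsupp.mem_support_iff.2 hi)
    exact h4.trans (h3.trans hP.1)
  have hexp : bind₁ g P = ∑ e ∈ P.support, C (coeff e P) * ∏ i, g i ^ e i := by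
    conv_lhs => rw [P.as_sum]
    rw [map_sum]
    refine Finset.sum_congr rfl fun e _ => ?_
    rw [bind₁_monomial]
    congr 1
    exact Finset.prod_subset (Finset.subset_univ _) fun i _ hi => by
      rw [Finsupp.notMem_support_iff.1 hi, pow_zero]
  refine ⟨?_, ?_⟩
  · rw [hexp]
    refine (totalDegree_finsetSum _ _).trans (Finset.sup_le fun e he => ?_)
    refine (totalDegree_mul _ _).trans ?_
    rw [totalDegree_C, zero_add]
    refine ((hprod e he).1).trans ?_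
    omega
  · rw [hexp]
    have h5 : CB (∑ e ∈ P.support, C (coeff e P) * ∏ i, g i ^ e i)
        (∑ _e ∈ P.support, (K * R ^ K) * (K₂ * R ^ K₂)) := by
      refine cb_sum _ _ _ fun e he => cb_mono (cb_C_mul _ (hprod e he).2) ?_
      exact mul_le_mul_of_nonneg_right (hP.2 e) (kr_nonneg K₂ hR)
    refine cb_mono h5 ?_
    rw [Finset.sum_const, nsmul_eq_mul]
    have h6 : (P.support.card : ℝ) ≤ ((K + 1) ^ c : ℕ) := by
      exact_mod_cast card_support_le hP.1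
    have h7 : (K : ℝ) * R ^ K * (K₂ * R ^ K₂) = (K * K₂) * R ^ (K + K₂) := by
      rw [pow_add]
      ring
    rw [h7]
    have h8 : R ^ (K + K₂) ≤ R ^ ((K + 1) ^ c * (K * K₂) + (K + K₂)) :=
      pow_le_pow_right₀ hR (Nat.le_add_left _ _)
    calc (P.support.card : ℝ) * ((K * K₂) * R ^ (K + K₂)) ≤
        ((K + 1) ^ c : ℕ) * ((K * K₂) * R ^ (K + K₂)) :=
          mul_le_mul_of_nonneg_right h6 (by positivity)
      _ = (((K + 1) ^ c * (K * K₂) : ℕ) : ℝ) * R ^ (K + K₂) := by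
          push_cast
          ring
      _ ≤ (((K + 1) ^ c * (K * K₂) + (K + K₂) : ℕ) : ℝ) *
          R ^ ((K + 1) ^ c * (K * K₂) + (K + K₂)) := by
          refine mul_le_mul ?_ h8 (by positivity) (by positivity)
          exact_mod_cast Nat.le_add_right _ _

/-- The coefficient `1 / r!`. -/
theorem abs_inv_fact (r : ℕ) : |1 / (r.factorial : ℝ)| ≤ 1 := by
  have h1 : (1 : ℝ) ≤ r.factorial := by exact_mod_cast Nat.one_le_iff_ne_zero.2 (Nat.factorial_ne_zero r)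
  rw [abs_of_nonneg (by positivity), div_le_one (by positivity)]
  exact h1

/-- One step of the recursion. -/
theorem pb_step (c N D K₀ K K₁ : ℕ) : ∃ K' : ℕ, ∀ R : ℝ, 1 ≤ R → ∀ (ξ : Fin c → Pl c) (P : Pl c)
    (g : Fin c → Pl N) (r s : ℕ) (a : ℝ), (∀ i, PB K₀ R (ξ i)) → PB K R P →
    (∀ i, PB K₁ R (g i)) → r ≤ D → s ≤ D + 1 → |a| ≤ 1 →
    PB K' R (C a * (X 0 : Pl (N + 1)) ^ s *
      bind₁ (fun k => rename Fin.succ (g k)) ((lie ξ)^[r] P)) := by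
  obtain ⟨K₂, h₂⟩ := pb_iter_le c K K₀ D
  obtain ⟨K₃, h₃⟩ := pb_bind c (N + 1) K₂ K₁
  obtain ⟨K₄, h₄⟩ := pb_pow_le (N + 1) 1 (D + 1)
  obtain ⟨K₅, h₅⟩ := pb_mul (N + 1) K₄ K₃
  refine ⟨K₅, fun R hR ξ P g r s a hξ hP hg hr hs ha => ?_⟩
  rw [mul_assoc]
  refine PB.const_mul hR ?_ ha
  refine h₅ R hR _ _ (h₄ s hs R hR _ (PB.X hR 0))
    (h₃ R hR _ _ (h₂ r hr R hR ξ P hξ hP) fun i => ?_)
  exact PB.rename hR (hg i) _ (Fin.succ_injective _)

theorem pb_wT (c : ℕ) (d : Fin c → ℕ) (K₀ : ℕ) : ∀ N : ℕ, ∃ K : ℕ, ∀ R : ℝ, 1 ≤ R →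
    ∀ (ξ : Fin N → Fin c → Pl c), (∀ a i, PB K₀ R (ξ a i)) → ∀ i, PB K R (wT d N ξ i) := by
  intro N
  induction N with
  | zero => exact ⟨0, fun R hR ξ _ i => PB.zero hR⟩
  | succ N ih =>
    obtain ⟨K₁, h₁⟩ := ih
    obtain ⟨K₂, h₂⟩ := pb_step c N (∑ i, d i) K₀ 1 K₁
    refine ⟨(∑ i, d i + 1) * K₂ + K₂, fun R hR ξ hξ i => ?_⟩
    have hdi : d i ≤ ∑ i, d i := Finset.single_le_sum (f := d) (fun _ _ => Nat.zero_le _)
      (Finset.mem_univ i)
    have h3 : PB ((d i + 1) * K₂ + K₂) R (wT d (N + 1) ξ i) := by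
      rw [wT]
      refine PB.sum_range hR _ fun r hr => ?_
      exact h₂ R hR (ξ 0) (X i) _ r r _ (hξ 0) (PB.X hR i) (h₁ R hR _ fun a => hξ a.succ)
        (by omega) (by omega) (abs_inv_fact r)
    refine PB.mono h3 ?_ hR
    gcongr

theorem pb_wH (c j : ℕ) (d : Fin c → ℕ) (K₀ : ℕ) : ∀ N : ℕ, ∃ K : ℕ, ∀ R : ℝ, 1 ≤ R →
    ∀ (ξ : Fin N → Fin c → Pl c) (b : Fin N → Pl c), (∀ a i, PB K₀ R (ξ a i)) →
    (∀ a, PB K₀ R (b a)) → PB K R (wH d j N ξ b) := by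
  intro N
  induction N with
  | zero => exact ⟨0, fun R hR ξ b _ _ => PB.zero hR⟩
  | succ N ih =>
    obtain ⟨K₁, h₁⟩ := ih
    obtain ⟨K₃, h₃⟩ := pb_wT c d K₀ N
    obtain ⟨K₂, h₂⟩ := pb_step c N j K₀ K₀ K₃
    refine ⟨K₁ + (j * K₂ + K₂), fun R hR ξ b hξ hb => ?_⟩
    rw [wH]
    refine PB.add hR (PB.rename hR (h₁ R hR _ _ (fun a => hξ a.succ) fun a => hb a.succ) _
      (Fin.succ_injective _)) (PB.sum_range hR _ fun r hr => ?_)
    exact h₂ R hR (ξ 0) (b 0) _ r (r + 1) _ (hξ 0) (hb 0) (h₃ R hR _ fun a => hξ a.succ)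
      (by omega) (by omega) (abs_inv_fact (r + 1))

end FLW2

open FLW2 in
/-- **Row FLW2.** -/
theorem flw2_thm : Flw2Stmt := by
  intro c j N d hd hj
  obtain ⟨K₁, h₁⟩ := pb_wT c d (∑ i, d i + j + 1) N
  obtain ⟨K₂, h₂⟩ := pb_wH c j d (∑ i, d i + j + 1) N
  refine ⟨K₁ + K₂, fun R hR ξ b hξ hb hξR hbR => ?_⟩
  have hK0 : ∀ P : Pl c, P.totalDegree ≤ ∑ i, d i + j + 1 → CB P R →
      PB (∑ i, d i + j + 1) R P := by
    intro P hP hPR
    refine ⟨hP, cb_mono hPR ?_⟩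
    have h3 : (1 : ℝ) ≤ ((∑ i, d i + j + 1 : ℕ) : ℝ) := by
      exact_mod_cast Nat.le_add_left 1 _
    have h4 : R ≤ R ^ (∑ i, d i + j + 1) := le_self_pow₀ hR (by omega)
    calc R = 1 * R := (one_mul R).symm
      _ ≤ _ := mul_le_mul h3 h4 (by linarith) (by positivity)
  have hξ' : ∀ a i, PB (∑ i, d i + j + 1) R (ξ a i) := by
    intro a i
    refine hK0 _ ?_ (hξR a i)
    have h5 := totalDegree_le_of_wh hd (hξ a i)
    have h6 : d i ≤ ∑ i, d i := Finset.single_le_sum (f := d) (fun _ _ => Nat.zero_le _)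
      (Finset.mem_univ i)
    omega
  have hb' : ∀ a, PB (∑ i, d i + j + 1) R (b a) := by
    intro a
    refine hK0 _ ?_ (hbR a)
    have h5 := totalDegree_le_of_wh hd (hb a)
    omega
  refine ⟨fun i => ?_, ?_⟩
  · exact (PB.mono (h₁ R hR ξ hξ' i) (Nat.le_add_right _ _) hR).2
  · exact (PB.mono (h₂ R hR ξ b hξ' hb') (Nat.le_add_left _ _) hR).2

end Pool.STAT
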