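import Pool.Agent.H19.STAT.Sys
import Pool.Agent.H32.Dense.EntX

/-!
# Row 113 VCH: the entropy of the rounded vector field, and the choice of the level
-/

set_option autoImplicit false

namespace Pool.STAT

open Finset MvPolynomial
open Pool.Agent.H49.Ent Pool.Agent.H32.Dense Pool.STK

namespace VCH

theorem ch_le_h {Ω S T : Type*} [Fintype Ω] {p : Ω → ℝ} (hp : ∀ ω, 0 ≤ p ω)
    (h1 : ∑ ω, p ω = 1) (A : Ω → S) (Z : Ω → T) : CH p A Z ≤ H p A := by
  have := subadd hp h1 (X := A) (Y := Z) (W := fun ω => (A ω, Z ω)) (fun ω ω' _ _ h => h)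
  unfold CH
  linarith

/-- The exponents with variables before `n` and entries at most `D₀`. -/
noncomputable def expo (n D₀ : ℕ) : Finset (ℕ →₀ ℕ) :=
  (range n).finsupp fun _ => range (D₀ + 1)

theorem le_weight (d : ℕ → ℕ) (hd : ∀ i, 1 ≤ d i) (k : ℕ →₀ ℕ) (i : ℕ) :
    k i ≤ Finsupp.weight d k := by
  rw [Finsupp.weight_apply, Finsupp.sum]
  by_cases hi : i ∈ k.support
  · calc k i ≤ k i • d i := by
          rw [smul_eq_mul]
          exact Nat.le_mul_of_pos_right _ (hd i)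
      _ ≤ _ := single_le_sum (f := fun i => k i • d i) (fun _ _ => Nat.zero_le _) hi
  · rw [Finsupp.notMem_support_iff.mp hi]
    exact Nat.zero_le _

theorem support_sub (d : ℕ → ℕ) (hd : ∀ i, 1 ≤ d i) {n D₀ w : ℕ} {F : PN} (hv : F.vars ⊆ range n)
    (hw : F.IsWeightedHomogeneous d w) (hD : w ≤ D₀) : F.support ⊆ expo n D₀ := by
  intro k hk
  refine Finset.mem_finsupp_iff.mpr ⟨fun i hi => hv ?_, fun i _ => ?_⟩
  · exact (mem_vars_iff_mem_support i).mpr ⟨k, hk, hi⟩
  · rw [mem_range]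
    have h1 := hw (mem_support_iff.mp hk)
    have h2 := le_weight d hd k i
    omega

theorem rnd_eq {a S : ℝ} (hS : 0 ≤ S) (F : PN) (T : Finset (ℕ →₀ ℕ)) (hT : F.support ⊆ T) :
    rnd a S F = ∑ k ∈ T, monomial k
      (((if |F.coeff k| ≤ S then ⌊a * F.coeff k⌋ else 0 : ℤ) : ℝ) / a) := by
  classical
  unfold rnd
  rw [sum_subset hT]
  · refine sum_congr rfl fun k _ => ?_
    congr 1
    split_ifs
    · rfl
    · simp
  · intro k _ hk
    rw [MvPolynomial.notMem_support_iff.mp hk]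
    simp [hS]

theorem floor_mem {a S c : ℝ} (ha : 0 ≤ a) :
    (if |c| ≤ S then ⌊a * c⌋ else 0 : ℤ) ∈ Icc (-((⌈a * S⌉₊ + 1 : ℕ) : ℤ))
      ((⌈a * S⌉₊ + 1 : ℕ) : ℤ) := by
  split_ifs with h
  · obtain ⟨h1, h2⟩ := abs_le.mp h
    have h3 : -(a * S) ≤ a * c := by nlinarith
    have h4 : a * c ≤ a * S := mul_le_mul_of_nonneg_left h2 ha
    have h5 := Nat.le_ceil (a * S)
    have h6 := Int.floor_le (a * c)
    have h7 := Int.lt_floor_add_one (a * c)
    rw [mem_Icc]
    constructor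
    · have : (-((⌈a * S⌉₊ + 1 : ℕ) : ℤ) : ℝ) ≤ (⌊a * c⌋ : ℝ) := by
        push_cast
        linarith
      exact_mod_cast this
    · have : (⌊a * c⌋ : ℝ) ≤ (((⌈a * S⌉₊ + 1 : ℕ) : ℤ) : ℝ) := by
        push_cast
        linarith
      exact_mod_cast this
  · rw [mem_Icc]
    constructor
    · exact neg_nonpos.mpr (by positivity)
    · positivity

open Classical in
/-- The possible values. -/
noncomputable def vals (n : ℕ) (T : Finset (ℕ →₀ ℕ)) (a : ℝ) (N : ℕ) : Finset (ℕ → PN) :=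
  (Fintype.piFinset fun _ : Fin (n + 1) × T => Icc (-(N : ℤ)) (N : ℤ)).image
    fun m i => if h : i < n + 1 then ∑ k : T, monomial (k : ℕ →₀ ℕ) ((m (⟨i, h⟩, k) : ℝ) / a)
      else 0

theorem card_vals (n : ℕ) (T : Finset (ℕ →₀ ℕ)) (a : ℝ) (N : ℕ) :
    (vals n T a N).card ≤ (2 * N + 1) ^ ((n + 1) * T.card) := by
  classical
  refine card_image_le.trans (le_of_eq ?_)
  rw [Fintype.card_piFinset, prod_const, card_univ, Fintype.card_prod, Fintype.card_fin,
    Fintype.card_coe, Int.card_Icc]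
  congr 1
  omega

theorem log_bound {x y : ℝ} {n t N : ℕ} (hx : 1 ≤ x) (hN : (N : ℝ) ≤ x + 2) (hy : 7 * x ≤ y) :
    Real.log (((2 * N + 1) ^ (n * t) : ℕ) : ℝ) ≤ (n * t : ℕ) * Real.log y := by
  push_cast
  rw [Real.log_pow]
  push_cast
  refine mul_le_mul_of_nonneg_left (Real.log_le_log (by positivity) ?_) (by positivity)
  linarith

end VCH

open VCH in
/-- **Row 113 VCH.** -/
theorem vch_of (hA : AdxStmt) : VchStmt := by
  classical
  intro n K d C₂ hd0 hd hC₂
  obtain ⟨D₀, hD₀⟩ : ∃ D₀ : ℕ, ∀ i ≤ n, d i - 1 ≤ D₀ :=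
    ⟨∑ i ∈ range (n + 1), d i, fun i hi => (Nat.sub_le _ _).trans
      (single_le_sum (f := d) (fun _ _ => Nat.zero_le _) (mem_range.mpr (by omega)))⟩
  set T : Finset (ℕ →₀ ℕ) := expo n D₀ with hT
  refine ⟨((n + 1) * T.card : ℕ) * (8 + C₂) + 1, ?_, ?_⟩
  · have : (0 : ℝ) ≤ ((n + 1) * T.card : ℕ) * (8 + C₂) := by positivity
    linarith
  intro U hU L hL J z M σ κ C₁ D q hz hOk _
  have hq := hOk.isLaw
  have hz' : (1 : ℝ) ≤ z := by exact_mod_cast hz
  have hU' : (1 : ℝ) ≤ U := by exact_mod_cast hU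
  set a : ℝ := (2 : ℝ) ^ ((U + 1) * z) with ha
  set S : ℝ := Real.exp (C₂ * z) with hS
  have ha1 : 1 ≤ a := one_le_pow₀ (by norm_num)
  have hS1 : 1 ≤ S := Real.one_le_exp (by positivity)
  have haS : 1 ≤ a * S := one_le_mul_of_one_le_of_one_le ha1 hS1
  have ha0 : 0 ≤ a := by linarith
  have hS0 : 0 ≤ S := by linarith
  set N : ℕ := ⌈a * S⌉₊ + 1 with hN
  have hmem : ∀ ω, 0 < q ω → D.vf d z (U + 1) C₂ n ω ∈ vals n T a N := by
    intro ω _
    have htri : TriN (D.Rt ω) := by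
      intro i
      unfold NDat.Rt atT
      by_cases hi : i = 0
      · subst hi
        rw [Function.update_self, vars_C]
        exact empty_subset _
      · rw [Function.update_of_ne hi]
        exact hOk.R_tri _ i
    obtain ⟨-, -, -, -, -, htf, hhf, -⟩ := hA.2 d (D.Rt ω) hd0 hd htri
    have hsup : ∀ i ≤ n, (fld d (D.Rt ω) i).support ⊆ T := fun i hi =>
      support_sub d hd ((htf i).trans (range_subset_range.mpr hi)) (hhf i) (hD₀ i hi)
    refine mem_image.mpr ⟨fun x => if |(fld d (D.Rt ω) x.1).coeff x.2| ≤ S then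
      ⌊a * (fld d (D.Rt ω) x.1).coeff x.2⌋ else 0, ?_, ?_⟩
    · refine Fintype.mem_piFinset.mpr fun x => ?_
      exact floor_mem ha0
    · funext i
      unfold NDat.vf
      by_cases hi : i ≤ n
      · rw [if_pos hi, dif_pos (by omega : i < n + 1), rnd_eq hS0 _ T (hsup i hi)]
        rw [← sum_coe_sort T]
      · rw [if_neg hi, dif_neg (by omega : ¬ i < n + 1)]
  have hH : H q (D.vf d z (U + 1) C₂ n) ≤ ((n + 1) * T.card : ℕ) * ((8 + C₂) * (U * z)) := by
    refine (H_le_log_card hq.nonneg hq.sum_one _ _ hmem).trans ?_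
    have hc := card_vals n T a N
    have hpos : 0 < (vals n T a N).card := by
      obtain ⟨ω, hω⟩ : ∃ ω, 0 < q ω := by
        by_contra hcon
        push Not at hcon
        have : ∑ ω, q ω = 0 := Finset.sum_eq_zero (fun ω _ => le_antisymm (hcon ω) (hq.nonneg ω))
        linarith [hq.sum_one]
      exact card_pos.mpr ⟨_, hmem ω hω⟩
    have h1 : Real.log ((vals n T a N).card : ℝ) ≤
        Real.log (((2 * N + 1) ^ ((n + 1) * T.card) : ℕ) : ℝ) :=
      Real.log_le_log (by exact_mod_cast hpos) (by exact_mod_cast hc)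
    have hNle : (N : ℝ) ≤ a * S + 2 := by
      have := Nat.ceil_lt_add_one (by positivity : 0 ≤ a * S)
      rw [hN]
      push_cast
      linarith
    refine h1.trans ((log_bound haS hNle le_rfl).trans ?_)
    refine mul_le_mul_of_nonneg_left ?_ (by positivity)
    rw [Real.log_mul (by norm_num) (by positivity), Real.log_mul (by positivity) (by positivity),
      ha, hS, Real.log_exp, Real.log_pow]
    have h7 : Real.log 7 ≤ 6 := by
      have := Real.log_le_sub_one_of_pos (by norm_num : (0 : ℝ) < 7)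
      linarith
    have hl2 : Real.log 2 ≤ 1 := by
      have := Real.log_le_sub_one_of_pos (by norm_num : (0 : ℝ) < 2)
      linarith
    have hl20 : 0 ≤ Real.log 2 := Real.log_nonneg (by norm_num)
    have hUz : (1 : ℝ) ≤ U * z := one_le_mul_of_one_le_of_one_le hU' hz'
    have hzU : (z : ℝ) ≤ U * z := by nlinarith
    have h2 : (((U + 1) * z : ℕ) : ℝ) * Real.log 2 ≤ 2 * (U * z) := by
      push_cast
      have : ((U : ℝ) + 1) * z * Real.log 2 ≤ ((U : ℝ) + 1) * z * 1 :=
        mul_le_mul_of_nonneg_left hl2 (by positivity)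
      nlinarith
    have h3 : C₂ * z ≤ C₂ * (U * z) := mul_le_mul_of_nonneg_left hzU (by linarith)
    nlinarith
  have hL1 : 1 ≤ L := by
    by_contra hcon
    have h0 : L = 0 := by omega
    rw [h0] at hL
    have : (0 : ℝ) ≤ ((n + 1) * T.card : ℕ) * (8 + C₂) := by positivity
    push_cast at hL this
    nlinarith
  by_contra hcon
  push Not at hcon
  have hsum : ∑ l ∈ range L, (z : ℝ) < ∑ l ∈ range L,
      (CH q (D.vf d z (U + 1) C₂ n) (D.c (2 * l * U + U)) -
        CH q (D.vf d z (U + 1) C₂ n) (D.c (2 * l * U + 3 * U))) :=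
    sum_lt_sum_of_nonempty (nonempty_range_iff.mpr (by omega)) fun l hl =>
      hcon l (mem_range.mp hl)
  have htel : ∑ l ∈ range L,
      (CH q (D.vf d z (U + 1) C₂ n) (D.c (2 * l * U + U)) -
        CH q (D.vf d z (U + 1) C₂ n) (D.c (2 * l * U + 3 * U))) =
      CH q (D.vf d z (U + 1) C₂ n) (D.c (2 * 0 * U + U)) -
        CH q (D.vf d z (U + 1) C₂ n) (D.c (2 * L * U + U)) := by
    rw [← sum_range_sub' (fun l => CH q (D.vf d z (U + 1) C₂ n) (D.c (2 * l * U + U)))]
    refine sum_congr rfl fun l _ => ?_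
    have : 2 * l * U + 3 * U = 2 * (l + 1) * U + U := by ring
    rw [this]
  rw [htel, sum_const, card_range, nsmul_eq_mul] at hsum
  have h1 := ch_le_h hq.nonneg hq.sum_one (D.vf d z (U + 1) C₂ n) (D.c (2 * 0 * U + U))
  have h2 := CH_nonneg hq.nonneg (D.vf d z (U + 1) C₂ n) (D.c (2 * L * U + U))
  have h3 : (((n + 1) * T.card : ℕ) * (8 + C₂) + 1) * U * z ≤ (L : ℝ) * z :=
    mul_le_mul_of_nonneg_right hL (by positivity)
  have h4 : (0 : ℝ) < U * z := by positivity
  nlinarith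

end Pool.STAT
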