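import Pool.Agent.H19.STAT.Abs
import Pool.Agent.H19.STAT.Tools
import Pool.Agent.H6.STAT.Tf
import Pool.Agent.H90.STAT.Adx
import Pool.Agent.H36.STAT.Dgb
import Pool.Agent.H36.KBX.Coef
import Pool.Agent.H99.STAT.Cmrw
import Pool.Agent.H87.STAT.Vch

/-!
# Exact closed labels from new labels of a system

A new label (`NDat.NewLab`) is a function of the point which is almost conserved along the lines,
with positive probability. Here the coefficients are rounded in natural coordinates, so that the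
label becomes exactly a function of the line and of the window.
-/

set_option autoImplicit false

namespace Pool.STAT

open Finset MvPolynomial
open Pool.Agent.H49.Ent Pool.Agent.H32.Dense Pool.STK Pool.KS3
open Pool.BFL (Pl CB Pb P2)

/-- **Row 123 EXL.** -/
def ExlStmt : Prop :=
  ∀ n K K' i : ℕ, i ≤ n → ∃ (K'' : ℕ) (C₇ : ℝ), 1 ≤ C₇ ∧
    ∀ (J z M v v' A : ℕ) (σ : ℕ → ℝ) (κ C₁ C₆ η' : ℝ) (D : NDat) (q : D.Ω → ℝ),
      D.Ok n K J z M σ κ C₁ q → v ≤ v' → v' ≤ M → 0 ≤ C₆ → D.NewLab J z i v v' A K' C₆ η' q →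
      ∃ (W : Type) (ζ : (ℕ → D.Γ) → W) (ζ' : D.Λ × ℕ → W) (G : W → PN) (pr : W → D.Γ),
        (∀ x, pr (ζ x) = x v) ∧
        (∀ w, (G w).totalDegree ≤ K'') ∧ (∀ w, (G w).vars ⊆ range i) ∧
        η' / 2 ≤ Pb q (fun ω => ζ (D.cs v' ω) = ζ' (D.wn J (v * z) ω) ∧
          |D.X ω i - eval (D.X ω) (G (ζ' (D.wn J (v * z) ω)))| ≤ C₇ / 2 ^ (D.g v i + A * z) ∧
          ∀ b : ℕ → ℝ, Bx (D.g v) (D.P v (D.c v ω)) i b →
            |eval b (G (ζ' (D.wn J (v * z) ω))) - eval b (D.P v (D.c v ω) i)| ≤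
              C₇ * Real.exp (C₆ * z) / 2 ^ D.g v i)

/-- **Row 123 EXL**, in absolute units. -/
def Exl0Stmt : Prop :=
  ∀ n K K' i : ℕ, i ≤ n → ∃ (K'' : ℕ) (C₇ : ℝ), 1 ≤ C₇ ∧
    ∀ (J w₀ z M v v' A : ℕ) (σ : ℕ → ℝ) (κ C₁ C₆ η' : ℝ) (D : NDat) (q : D.Ω → ℝ),
      D.Ok0 n K J w₀ z M σ κ C₁ q → v ≤ v' → v' ≤ M → 0 ≤ C₆ →
      D.NewLab0 J w₀ z i v v' A K' C₆ η' q →
      ∃ (W : Type) (ζ : (ℕ → D.Γ) → W) (ζ' : D.Λ × ℕ → W) (G : W → PN) (pr : W → D.Γ),
        (∀ x, pr (ζ x) = x v) ∧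
        (∀ w, (G w).totalDegree ≤ K'') ∧ (∀ w, (G w).vars ⊆ range i) ∧
        η' / 2 ≤ Pb q (fun ω => ζ (D.cs v' ω) = ζ' (D.wn J (w₀ + v * z) ω) ∧
          |D.X ω i - eval (D.X ω) (G (ζ' (D.wn J (w₀ + v * z) ω)))| ≤
            C₇ / 2 ^ (D.g v i + A * z) ∧
          ∀ b : ℕ → ℝ, Bx (D.g v) (D.P v (D.c v ω)) i b →
            |eval b (G (ζ' (D.wn J (w₀ + v * z) ω))) - eval b (D.P v (D.c v ω) i)| ≤
              C₇ * Real.exp (C₆ * z) / 2 ^ D.g v i)

/-- A new label, for an arbitrary window. -/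
def NLW (D : NDat) (J w z i v v' A K' : ℕ) (C₆ η' : ℝ) (q : D.Ω → ℝ) : Prop :=
  ∃ G : (ℕ → D.Γ) → PN, (∀ x, (G x).totalDegree ≤ K') ∧ (∀ x, (G x).vars ⊆ range i) ∧
    η' ≤ P2 q (D.wn J w) (fun ω ω' =>
      |D.X ω i - eval (D.X ω) (G (D.cs v' ω))| ≤ 1 / 2 ^ (D.g v i + A * z) ∧
      |D.X ω' i - eval (D.X ω') (G (D.cs v' ω'))| ≤ 1 / 2 ^ (D.g v i + A * z) ∧
      (∀ b : ℕ → ℝ, Bx (D.g v) (D.P v (D.c v ω)) i b →
        |eval b (G (D.cs v' ω')) - eval b (G (D.cs v' ω))| ≤ 1 / 2 ^ (D.g v i + A * z)) ∧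
      ∀ b : ℕ → ℝ, Bx (D.g v) (D.P v (D.c v ω)) i b →
        |eval b (G (D.cs v' ω)) - eval b (D.P v (D.c v ω) i)| ≤
          Real.exp (C₆ * z) / 2 ^ D.g v i)

namespace EXL

/-! ### Rounding with a shift -/

theorem straddle {β a b : ℝ} {N s s' : ℕ} (hβ : 0 < β) (hab : |a - b| < β) (hs : s < N)
    (hs' : s' < N) (h : ⌊(a - s * β) / (N * β)⌋ ≠ ⌊(b - s * β) / (N * β)⌋)
    (h' : ⌊(a - s' * β) / (N * β)⌋ ≠ ⌊(b - s' * β) / (N * β)⌋) : s = s' := by
  have hN : (0 : ℝ) < N := by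
    have : 0 < N := by omega
    exact_mod_cast this
  have hNβ : 0 < N * β := mul_pos hN hβ
  -- for a shift which separates there is a multiple of `β` in between
  have key : ∀ (t : ℕ), ⌊(a - t * β) / (N * β)⌋ ≠ ⌊(b - t * β) / (N * β)⌋ →
      ∃ m : ℤ, min a b < (m * N + t) * β ∧ (m * N + t) * β ≤ max a b := by
    intro t ht
    rcases lt_or_gt_of_ne ht with h1 | h1
    · refine ⟨⌊(b - t * β) / (N * β)⌋, ?_, ?_⟩
      · have h2 : (a - t * β) / (N * β) < ⌊(b - t * β) / (N * β)⌋ := Int.floor_lt.1 h1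
        rw [div_lt_iff₀ hNβ] at h2
        exact (min_le_left a b).trans_lt (by linarith)
      · have h2 := Int.floor_le ((b - t * β) / (N * β))
        rw [le_div_iff₀ hNβ] at h2
        exact le_trans (by linarith) (le_max_right a b)
    · refine ⟨⌊(a - t * β) / (N * β)⌋, ?_, ?_⟩
      · have h2 : (b - t * β) / (N * β) < ⌊(a - t * β) / (N * β)⌋ := Int.floor_lt.1 h1
        rw [div_lt_iff₀ hNβ] at h2
        exact (min_le_right a b).trans_lt (by linarith)
      · have h2 := Int.floor_le ((a - t * β) / (N * β))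
        rw [le_div_iff₀ hNβ] at h2
        exact le_trans (by linarith) (le_max_left a b)
  obtain ⟨m, hm1, hm2⟩ := key s h
  obtain ⟨m', hm1', hm2'⟩ := key s' h'
  have hd : max a b - min a b < β := by
    rw [max_sub_min_eq_abs']
    exact hab
  have h3 : ((m * N + s : ℤ) : ℝ) - ((m' * N + s' : ℤ) : ℝ) < 1 := by
    push_cast
    by_contra hc
    push Not at hc
    nlinarith
  have h4 : ((m' * N + s' : ℤ) : ℝ) - ((m * N + s : ℤ) : ℝ) < 1 := by
    push_cast
    by_contra hc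
    push Not at hc
    nlinarith
  have h5 : m * N + s = m' * N + s' := by
    have a1 : (m * N + s : ℤ) - (m' * N + s') < 1 := by exact_mod_cast h3
    have a2 : (m' * N + s' : ℤ) - (m * N + s) < 1 := by exact_mod_cast h4
    omega
  have hN' : (0 : ℤ) < N := by exact_mod_cast hN
  have h6 : m = m' := by
    have a1 : (s : ℤ) < N := by exact_mod_cast hs
    have a2 : (s' : ℤ) < N := by exact_mod_cast hs'
    by_contra hne
    rcases lt_or_gt_of_ne hne with hl | hl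
    · have : m + 1 ≤ m' := hl
      nlinarith
    · have : m' + 1 ≤ m := hl
      nlinarith
  rw [h6] at h5
  have : (s : ℤ) = s' := by linarith
  exact_mod_cast this

/-- Few shifts separate two close vectors. -/
theorem few_bad {E : Finset (ℕ →₀ ℕ)} {β : ℝ} {N : ℕ} (hβ : 0 < β) (a b : (ℕ →₀ ℕ) → ℝ)
    (hab : ∀ k ∈ E, |a k - b k| < β) :
    ((range N).filter fun s : ℕ => ¬ ∀ k ∈ E, ⌊(a k - s * β) / (N * β)⌋ =
      ⌊(b k - s * β) / (N * β)⌋).card ≤ E.card := by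
  classical
  have h1 : ((range N).filter fun s : ℕ => ¬ ∀ k ∈ E, ⌊(a k - s * β) / (N * β)⌋ =
      ⌊(b k - s * β) / (N * β)⌋) ⊆ E.biUnion fun k => (range N).filter fun s : ℕ =>
        ⌊(a k - s * β) / (N * β)⌋ ≠ ⌊(b k - s * β) / (N * β)⌋ := by
    intro s hs
    rw [mem_filter] at hs
    obtain ⟨hs1, hs2⟩ := hs
    push Not at hs2
    obtain ⟨k, hk, hk2⟩ := hs2
    exact mem_biUnion.2 ⟨k, hk, mem_filter.2 ⟨hs1, hk2⟩⟩
  refine (card_le_card h1).trans (card_biUnion_le.trans ?_)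
  rw [card_eq_sum_ones]
  refine sum_le_sum fun k hk => card_le_one.2 fun s hs s' hs' => ?_
  rw [mem_filter] at hs hs'
  exact straddle hβ (hab k hk) (mem_range.1 hs.1) (mem_range.1 hs'.1) hs.2 hs'.2

theorem round_err {x β : ℝ} {N s : ℕ} (hβ : 0 < β) (hN : 0 < N) :
    |x - (N * β * (⌊(x - s * β) / (N * β)⌋ : ℝ) + s * β)| ≤ N * β := by
  have hN' : (0 : ℝ) < N := by exact_mod_cast hN
  have hNβ : 0 < N * β := mul_pos hN' hβ
  have h1 := Int.floor_le ((x - s * β) / (N * β))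
  have h2 := Int.lt_floor_add_one ((x - s * β) / (N * β))
  rw [le_div_iff₀ hNβ] at h1
  rw [div_lt_iff₀ hNβ] at h2
  rw [abs_le]
  constructor <;> nlinarith

/-! ### Pairs -/

theorem P2_le {Ω G : Type} [Fintype Ω] {p : Ω → ℝ} (hp : ∀ ω, 0 ≤ p ω) {g : Ω → G}
    {A B : Ω → Ω → Prop}
    (h : ∀ ω ω', 0 < p ω → 0 < p ω' → g ω = g ω' → A ω ω' → B ω ω') :
    P2 p g A ≤ P2 p g B := by
  classical
  unfold P2
  refine sum_le_sum fun ω _ => sum_le_sum fun ω' _ => ?_
  have h0 : 0 ≤ p ω * p ω' / law p g (g ω) :=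
    div_nonneg (mul_nonneg (hp ω) (hp ω')) (law_nonneg hp g _)
  by_cases hA : g ω = g ω' ∧ A ω ω'
  · rw [if_pos hA]
    by_cases hz : p ω = 0 ∨ p ω' = 0
    · have : p ω * p ω' = 0 := by
        rcases hz with hz | hz <;> rw [hz] <;> simp
      rw [this, zero_div]
      split_ifs <;> exact le_rfl
    · push Not at hz
      have h1 := (hp ω).lt_of_ne (Ne.symm hz.1)
      have h2 := (hp ω').lt_of_ne (Ne.symm hz.2)
      rw [if_pos ⟨hA.1, h ω ω' h1 h2 hA.1 hA.2⟩]
  · rw [if_neg hA]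
    split_ifs
    · exact h0
    · exact le_rfl

open Classical in
/-- Some shift keeps half of the probability. -/
theorem shift {Ω G : Type} [Fintype Ω] {p : Ω → ℝ} (hp : ∀ ω, 0 ≤ p ω) {g : Ω → G}
    {A : Ω → Ω → Prop} {B : ℕ → Ω → Ω → Prop} {E N : ℕ} (hN : 2 * E ≤ N) (hN0 : 0 < N)
    (h : ∀ ω ω', 0 < p ω → 0 < p ω' → g ω = g ω' → A ω ω' →
      ∃ F : Finset ℕ, F.card ≤ E ∧ ∀ s < N, s ∉ F → B s ω ω') :
    ∃ s < N, P2 p g A / 2 ≤ P2 p g (B s) := by
  by_contra hcon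
  push Not at hcon
  have h1 : ∑ s ∈ range N, P2 p g (B s) < ∑ s ∈ range N, P2 p g A / 2 :=
    sum_lt_sum_of_nonempty (nonempty_range_iff.2 (by omega)) fun s hs => hcon s (mem_range.1 hs)
  have h2 : N / 2 * P2 p g A ≤ ∑ s ∈ range N, P2 p g (B s) := by
    unfold P2
    rw [mul_sum, sum_comm]
    refine sum_le_sum fun ω _ => ?_
    rw [mul_sum, sum_comm]
    refine sum_le_sum fun ω' _ => ?_
    have h0 : 0 ≤ p ω * p ω' / law p g (g ω) :=
      div_nonneg (mul_nonneg (hp ω) (hp ω')) (law_nonneg hp g _)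
    by_cases hA : g ω = g ω' ∧ A ω ω'
    · rw [if_pos hA]
      by_cases hz : p ω = 0 ∨ p ω' = 0
      · have : p ω * p ω' = 0 := by
          rcases hz with hz | hz <;> rw [hz] <;> simp
        rw [this, zero_div, mul_zero]
        exact sum_nonneg fun s _ => by split_ifs <;> exact le_rfl
      push Not at hz
      have g1 := (hp ω).lt_of_ne (Ne.symm hz.1)
      have g2 := (hp ω').lt_of_ne (Ne.symm hz.2)
      have h3 : ((range N).filter fun s => ¬ B s ω ω').card ≤ E := by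
        obtain ⟨F, hF1, hF2⟩ := h ω ω' g1 g2 hA.1 hA.2
        refine (card_le_card fun s hs => ?_).trans hF1
        rw [mem_filter] at hs
        by_contra hc
        exact hs.2 (hF2 s (mem_range.1 hs.1) hc)
      have h4 : ∑ s ∈ range N, (if g ω = g ω' ∧ B s ω ω' then
          p ω * p ω' / law p g (g ω) else 0) =
          (((range N).filter fun s => B s ω ω').card : ℝ) * (p ω * p ω' / law p g (g ω)) := by
        rw [← nsmul_eq_mul, ← sum_const, sum_filter]
        refine sum_congr rfl fun s _ => ?_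
        by_cases hB : B s ω ω'
        · rw [if_pos ⟨hA.1, hB⟩, if_pos hB]
        · rw [if_neg (fun hc => hB hc.2), if_neg hB]
      rw [h4]
      refine mul_le_mul_of_nonneg_right ?_ h0
      have h5 : ((range N).filter fun s => B s ω ω').card +
          ((range N).filter fun s => ¬ B s ω ω').card = N := by
        rw [card_filter_add_card_filter_not, card_range]
      have h6 : (N : ℝ) ≤ 2 * (((range N).filter fun s => B s ω ω').card : ℝ) := by
        have : N ≤ 2 * ((range N).filter fun s => B s ω ω').card := by omega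
        exact_mod_cast this
      linarith
    · rw [if_neg hA, mul_zero]
      exact sum_nonneg fun s _ => by
        split_ifs
        · exact h0
        · exact le_rfl
  rw [sum_const, card_range, nsmul_eq_mul] at h1
  linarith

open Classical in
/-- The most popular value on a line and a window. -/
theorem popular {Ω G W : Type} [Fintype Ω] [Nonempty W] {p : Ω → ℝ} (hp : ∀ ω, 0 ≤ p ω)
    (g : Ω → G) (Z : Ω → W) (A : Ω → Prop) :
    ∃ ζ' : G → W, P2 p g (fun ω ω' => A ω ∧ Z ω = Z ω') ≤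
      Pb p (fun ω => A ω ∧ Z ω = ζ' (g ω)) := by
  set m : G → W → ℝ := fun x w => ∑ ω, if g ω = x ∧ A ω ∧ Z ω = w then p ω else 0 with hm
  have hex : ∀ x, ∃ w, ∀ ω, g ω = x → m x (Z ω) ≤ m x w := by
    intro x
    by_cases hx : ∃ ω, g ω = x
    · obtain ⟨ω₀, hω₀⟩ := hx
      obtain ⟨ω₁, h1, h2⟩ := exists_max_image (univ.filter fun ω => g ω = x) (fun ω => m x (Z ω))
        ⟨ω₀, mem_filter.2 ⟨mem_univ _, hω₀⟩⟩
      exact ⟨Z ω₁, fun ω hω => h2 ω (mem_filter.2 ⟨mem_univ _, hω⟩)⟩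
    · exact ⟨Classical.arbitrary W, fun ω hω => absurd ⟨ω, hω⟩ hx⟩
  choose ζ' hζ' using hex
  refine ⟨ζ', ?_⟩
  have h1 : P2 p g (fun ω ω' => A ω ∧ Z ω = Z ω') =
      ∑ ω', p ω' / law p g (g ω') * m (g ω') (Z ω') := by
    unfold P2
    rw [sum_comm]
    refine sum_congr rfl fun ω' _ => ?_
    rw [hm]
    simp only
    rw [mul_sum]
    refine sum_congr rfl fun ω _ => ?_
    by_cases hc : g ω = g ω' ∧ A ω ∧ Z ω = Z ω'
    · rw [if_pos hc, if_pos hc, hc.1]
      ring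
    · rw [if_neg hc, if_neg hc, mul_zero]
  have h2 : ∑ ω', p ω' / law p g (g ω') * m (g ω') (Z ω') ≤
      ∑ ω', p ω' * (m (g ω') (ζ' (g ω')) / law p g (g ω')) := by
    refine sum_le_sum fun ω' _ => ?_
    have h3 : p ω' / law p g (g ω') * m (g ω') (Z ω') ≤
        p ω' / law p g (g ω') * m (g ω') (ζ' (g ω')) :=
      mul_le_mul_of_nonneg_left (hζ' _ ω' rfl) (div_nonneg (hp _) (law_nonneg hp g _))
    refine h3.trans (le_of_eq ?_)
    ring
  rw [h1]
  refine h2.trans ?_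
  rw [sum_mul_eq_sum_image p g (fun x => m x (ζ' x) / law p g x)]
  have h3 : Pb p (fun ω => A ω ∧ Z ω = ζ' (g ω)) = ∑ x ∈ univ.image g, m x (ζ' x) := by
    unfold Pb
    rw [hm]
    simp only
    rw [sum_comm]
    refine sum_congr rfl fun ω _ => ?_
    rw [sum_eq_single (g ω)]
    · by_cases hc : A ω ∧ Z ω = ζ' (g ω)
      · rw [if_pos hc, if_pos ⟨rfl, hc⟩]
      · rw [if_neg hc, if_neg (fun h => hc h.2)]
    · intro x _ hx
      rw [if_neg (fun h => hx h.1.symm)]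
    · intro hx
      exact absurd (mem_image_of_mem g (mem_univ ω)) hx
  rw [h3]
  refine sum_le_sum fun x _ => ?_
  have hm0 : 0 ≤ m x (ζ' x) := sum_nonneg fun ω _ => by
    split_ifs
    · exact hp ω
    · exact le_rfl
  by_cases hl : law p g x = 0
  · rw [hl, zero_mul]
    exact hm0
  · rw [mul_div_cancel₀ _ hl]

open Classical in
theorem Pb_mono {Ω : Type} [Fintype Ω] {p : Ω → ℝ} (hp : ∀ ω, 0 ≤ p ω) {A B : Ω → Prop}
    (h : ∀ ω, 0 < p ω → A ω → B ω) : Pb p A ≤ Pb p B := by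
  unfold Pb
  refine sum_le_sum fun ω _ => ?_
  by_cases hA : A ω
  · rw [if_pos hA]
    rcases (hp ω).eq_or_lt with hz | hz
    · rw [← hz]
      split_ifs <;> exact le_rfl
    · rw [if_pos (h ω hz hA)]
  · rw [if_neg hA]
    split_ifs
    · exact hp ω
    · exact le_rfl

/-! ### Polynomials in the natural coordinates -/

theorem supp_expo {i D₀ : ℕ} {F : PN} (hv : F.vars ⊆ range i) (hD : F.totalDegree ≤ D₀) :
    F.support ⊆ VCH.expo i D₀ := by
  intro k hk
  have h1 := supp_of_vars hv hk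
  refine Finset.mem_finsupp_iff.mpr ⟨h1, fun j hj => ?_⟩
  rw [mem_range]
  have h2 : (k.sum fun _ e => e) ≤ D₀ := (le_totalDegree hk).trans hD
  have h3 : k j ≤ k.sum fun _ e => e := by
    by_cases hj' : j ∈ k.support
    · exact single_le_sum (f := fun j => k j) (fun _ _ => Nat.zero_le _) hj'
    · rw [Finsupp.notMem_support_iff.mp hj']
      exact Nat.zero_le _
  omega

theorem eval_expo {i D₀ : ℕ} {F : PN} (hF : F.support ⊆ VCH.expo i D₀) {ε : ℝ} (hε : 0 ≤ ε)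
    (h : ∀ k, |F.coeff k| ≤ ε) {a : ℕ → ℝ} (ha : ∀ j < i, |a j| ≤ 1) :
    |eval a F| ≤ (VCH.expo i D₀).card * ε := by
  rw [eval_eq]
  refine (abs_sum_le_sum_abs _ _).trans ?_
  rw [← nsmul_eq_mul]
  refine (sum_le_card_nsmul F.support _ ε fun k hk => ?_).trans
    (nsmul_le_nsmul_left hε (card_le_card hF))
  rw [abs_mul, abs_prod]
  have h1 : ∏ j ∈ k.support, |a j ^ k j| ≤ 1 := by
    refine prod_le_one (fun j _ => abs_nonneg _) fun j hj => ?_
    rw [abs_pow]
    have h2 := (Finset.mem_finsupp_iff.mp (hF hk)).1 hj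
    exact pow_le_one₀ (abs_nonneg _) (ha j (mem_range.1 h2))
  calc |F.coeff k| * ∏ j ∈ k.support, |a j ^ k j| ≤ |F.coeff k| * 1 :=
        mul_le_mul_of_nonneg_left h1 (abs_nonneg _)
    _ ≤ ε := by rw [mul_one]; exact h k

/-- The coefficients from the values on the unit cube. -/
theorem coeff_of_sup (i D₀ : ℕ) : ∃ C : ℝ, 0 ≤ C ∧ ∀ (F : PN) (S : ℝ), F.vars ⊆ range i →
    F.totalDegree ≤ D₀ → (∀ a : ℕ → ℝ, (∀ j < i, |a j| ≤ 1) → |eval a F| ≤ S) →
    ∀ k, |F.coeff k| ≤ C * S := by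
  obtain ⟨C, hC0, hC⟩ := Pool.Agent.H36.KBX.coef_bound i D₀
  refine ⟨C, hC0, fun F S hv hD hS k => ?_⟩
  have hS0 : 0 ≤ S := (abs_nonneg _).trans (hS (fun _ => 0) (by simp))
  by_cases hk : k ∈ F.support
  · have h1 := supp_of_vars hv hk
    have h2 : (toF i F).totalDegree ≤ D₀ := by
      have h3 := CmrRow.deg_aeval (K := 1)
        (θ := fun j : ℕ => if h : j < i then (X ⟨j, h⟩ : Pl i) else 0) (F := F)
        (fun j _ => by
          by_cases h : j < i
          · simp only [dif_pos h, totalDegree_X]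
            exact le_rfl
          · simp only [dif_neg h, totalDegree_zero]
            exact Nat.zero_le _) hD
      rw [mul_one] at h3
      exact h3
    have h3 := hC (toF i F) S h2 (fun y hy => by
      have h4 := hS (fun j => if h : j < i then y ⟨j, h⟩ else 0) (fun j hj => by
        rw [dif_pos hj]
        exact hy _)
      rw [← T6.toF_eval hv] at h4
      have h5 : (fun j : Fin i => (fun j : ℕ => if h : j < i then y ⟨j, h⟩ else 0) (j : ℕ)) =
          y := by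
        funext j
        exact dif_pos j.2
      rw [h5] at h4
      exact h4) (k.comapDomain Fin.val (Fin.val_injective.injOn))
    rw [T6.toF_coeff hv] at h3
    rw [Finsupp.mapDomain_comapDomain _ Fin.val_injective] at h3
    · exact h3
    · intro j hj
      exact ⟨⟨j, mem_range.1 (h1 hj)⟩, rfl⟩
  · rw [MvPolynomial.notMem_support_iff.mp hk, abs_zero]
    positivity

section

variable {Φ : ℕ → PN}

/-- The points with natural coordinates in the unit cube. -/
theorem bx_nuc (hΦ : TriN Φ) (g : ℕ → ℕ) {i : ℕ} {a : ℕ → ℝ} (ha : ∀ j < i, |a j| ≤ 1) :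
    Bx g Φ i (fun j => eval a (nuc g Φ j)) := by
  intro j hj
  have h1 := congrArg (eval a) (AdxRow.nuc_eq hΦ g j)
  rw [map_add, map_mul, eval_C, eval_X, AdxRow.evl_bnd] at h1
  have h2 : eval a (nuc g Φ j) - eval (fun k => eval a (nuc g Φ k)) (Φ j) =
      1 / 2 ^ g j * a j := by
    rw [h1]
    ring
  show |eval a (nuc g Φ j) - eval (fun k => eval a (nuc g Φ k)) (Φ j)| ≤ 1 / 2 ^ g j
  rw [h2, abs_mul, abs_of_pos (by positivity : (0 : ℝ) < 1 / 2 ^ g j)]
  exact mul_le_of_le_one_right (by positivity) (ha j hj)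

/-- Values in absolute and in natural coordinates. -/
theorem eval_nat (hΦ : TriN Φ) (g : ℕ → ℕ) (F : PN) (b : ℕ → ℝ) :
    eval (fun j => (2 : ℝ) ^ g j * (b j - eval b (Φ j))) (bind₁ (nuc g Φ) F) = eval b F := by
  rw [AdxRow.evl_bnd]
  have h1 : (fun k => eval (fun j => (2 : ℝ) ^ g j * (b j - eval b (Φ j))) (nuc g Φ k)) = b := by
    funext k
    exact AdxRow.nuc_eval hΦ g b k
  rw [h1]

theorem abs_nat {g : ℕ → ℕ} {i : ℕ} {b : ℕ → ℝ} (hb : Bx g Φ i b) :
    ∀ j < i, |(2 : ℝ) ^ g j * (b j - eval b (Φ j))| ≤ 1 := by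
  intro j hj
  rw [abs_mul, abs_of_pos (by positivity : (0 : ℝ) < 2 ^ g j)]
  have h1 := mul_le_mul_of_nonneg_left (hb j hj) (by positivity : (0 : ℝ) ≤ 2 ^ g j)
  rwa [mul_one_div_cancel (by positivity)] at h1

end

/-- The polynomial in natural coordinates with given coefficients. -/
noncomputable def pl (E : Finset (ℕ →₀ ℕ)) (f : (ℕ →₀ ℕ) → ℝ) : PN := ∑ k ∈ E, monomial k (f k)

theorem coeff_pl {E : Finset (ℕ →₀ ℕ)} (f : (ℕ →₀ ℕ) → ℝ) {k : ℕ →₀ ℕ} (hk : k ∈ E) :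
    (pl E f).coeff k = f k := by
  classical
  unfold pl
  rw [coeff_sum]
  simp only [coeff_monomial]
  rw [sum_ite_eq', if_pos hk]

theorem coeff_pl' {E : Finset (ℕ →₀ ℕ)} (f : (ℕ →₀ ℕ) → ℝ) {k : ℕ →₀ ℕ} (hk : k ∉ E) :
    (pl E f).coeff k = 0 := by
  classical
  unfold pl
  rw [coeff_sum]
  simp only [coeff_monomial]
  rw [sum_ite_eq', if_neg hk]

theorem supp_pl (E : Finset (ℕ →₀ ℕ)) (f : (ℕ →₀ ℕ) → ℝ) : (pl E f).support ⊆ E := by
  intro k hk
  rw [mem_support_iff] at hk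
  by_contra h
  exact hk (coeff_pl' f h)

theorem vars_pl {i D₀ : ℕ} (f : (ℕ →₀ ℕ) → ℝ) : (pl (VCH.expo i D₀) f).vars ⊆ range i := by
  intro j hj
  obtain ⟨k, hk, hjk⟩ := (mem_vars_iff_mem_support j).mp hj
  exact (Finset.mem_finsupp_iff.mp (supp_pl _ _ hk)).1 hjk

theorem deg_pl {i D₀ : ℕ} (f : (ℕ →₀ ℕ) → ℝ) :
    (pl (VCH.expo i D₀) f).totalDegree ≤ i * D₀ := by
  refine Finset.sup_le fun k hk => ?_
  obtain ⟨h1, h2⟩ := Finset.mem_finsupp_iff.mp (supp_pl _ _ hk)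
  calc (k.sum fun _ e => e) ≤ ∑ j ∈ k.support, D₀ := by
        refine sum_le_sum fun j hj => ?_
        have h3 := mem_range.1 (h2 j (h1 hj))
        show k j ≤ D₀
        omega
    _ = k.support.card * D₀ := by rw [sum_const, smul_eq_mul]
    _ ≤ i * D₀ := by
        refine Nat.mul_le_mul_right _ ?_
        have := card_le_card h1
        rwa [card_range] at this

end EXL

open EXL in
/-- The exact label, for a window `w` which determines the label `c v`. -/
theorem exl_core (n K K' i : ℕ) (hi : i ≤ n) : ∃ (K'' : ℕ) (C₇ : ℝ), 1 ≤ C₇ ∧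
    ∀ (J z w v v' A : ℕ) (C₆ η' : ℝ) (D : NDat) (q : D.Ω → ℝ), IsLaw q →
      (∀ γ, TriN (D.P v γ)) → (∀ γ j, (D.P v γ j).totalDegree ≤ K) →
      Det q (D.wn J w) (D.c v) →
      (∀ ω, 0 < q ω → ∀ j ≤ n, |D.rh v ω j| ≤ 1 / 2 ^ D.g v j) →
      v ≤ v' → 0 ≤ C₆ → NLW D J w z i v v' A K' C₆ η' q →
      ∃ (W : Type) (ζ : (ℕ → D.Γ) → W) (ζ' : D.Λ × ℕ → W) (G : W → PN) (pr : W → D.Γ),
        (∀ x, pr (ζ x) = x v) ∧
        (∀ w, (G w).totalDegree ≤ K'') ∧ (∀ w, (G w).vars ⊆ range i) ∧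
        η' / 2 ≤ Pb q (fun ω => ζ (D.cs v' ω) = ζ' (D.wn J w ω) ∧
          |D.X ω i - eval (D.X ω) (G (ζ' (D.wn J w ω)))| ≤ C₇ / 2 ^ (D.g v i + A * z) ∧
          ∀ b : ℕ → ℝ, Bx (D.g v) (D.P v (D.c v ω)) i b →
            |eval b (G (ζ' (D.wn J w ω))) - eval b (D.P v (D.c v ω) i)| ≤
              C₇ * Real.exp (C₆ * z) / 2 ^ D.g v i) := by
  classical
  set D₀ : ℕ := max K K' * (K + 1) ^ (n + 1) with hD₀
  obtain ⟨C₀, hC₀, hC⟩ := coeff_of_sup i D₀
  set E := VCH.expo i D₀ with hE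
  set β : ℝ := C₀ + 1 with hβ
  have hβ0 : 0 < β := by positivity
  set N : ℕ := 2 * E.card + 1 with hN
  have hN0 : 0 < N := by omega
  have hNr : (0 : ℝ) < N := by exact_mod_cast hN0
  set C₇ : ℝ := 1 + E.card * (N * β) with hC₇
  have hEN : 0 ≤ E.card * (N * β) := by positivity
  refine ⟨K + i * D₀ * (K + 1), C₇, by linarith, ?_⟩
  intro J z wi v v' A C₆ η' D q hq htri hdeg hcw hhgt hvv hC₆ hNL
  obtain ⟨G, hGd, hGv, hP⟩ := hNL
  set g := D.g v with hg
  set Lam : ℝ := (2 : ℝ) ^ (g i + A * z) with hLam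
  have hLam0 : 0 < Lam := by positivity
  have hLg : (1 : ℝ) / Lam ≤ 1 / 2 ^ g i := by
    refine one_div_le_one_div_of_le (by positivity) ?_
    exact pow_le_pow_right₀ (by norm_num) (by omega)
  have hexp : (1 : ℝ) ≤ Real.exp (C₆ * z) := Real.one_le_exp (by positivity)
  -- the normalized differences
  set dif : (ℕ → D.Γ) → PN := fun x => G x - D.P v (x v) i with hdif
  set nb : (ℕ → D.Γ) → PN := fun x => bind₁ (nuc g (D.P v (x v))) (dif x) with hnb
  have hdv : ∀ x, (dif x).vars ⊆ range i := fun x =>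
    AdxRow.vars_sub_le (hGv x) (htri _ i)
  have hdd : ∀ x, (dif x).totalDegree ≤ max K K' := fun x =>
    (totalDegree_sub _ _).trans (max_le ((hGd x).trans (le_max_right _ _))
      ((hdeg _ _).trans (le_max_left _ _)))
  have hnd : ∀ γ, ∀ j < i, (nuc g (D.P v γ) j).totalDegree ≤ (K + 1) ^ (n + 1) := fun γ j hj =>
    (Dgb.deg_nuc (n := n) (htri γ) (fun l _ => hdeg _ _) g j (by omega)).trans
      (Nat.pow_le_pow_right (Nat.succ_pos _) (by omega))
  have hbv : ∀ γ, ∀ F : PN, F.vars ⊆ range i → (bind₁ (nuc g (D.P v γ)) F).vars ⊆ range i :=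
    fun γ F hF => vars_bind_le hF fun j _ => AdxRow.nuc_vars (htri γ) g j
  have hbd : ∀ γ, ∀ F : PN, F.vars ⊆ range i → F.totalDegree ≤ max K K' →
      (bind₁ (nuc g (D.P v γ)) F).totalDegree ≤ D₀ := fun γ F hF hF' =>
    deg_bind_le hF hF' (hnd γ)
  have hns : ∀ x, (nb x).support ⊆ E := fun x =>
    supp_expo (hbv _ _ (hdv x)) (hbd _ _ (hdv x) (hdd x))
  -- the rounding
  set cf : (ℕ → D.Γ) → (ℕ →₀ ℕ) → ℝ := fun x k => Lam * (nb x).coeff k with hcf
  set W : Type := D.Γ × ((ℕ →₀ ℕ) → ℤ) with hW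
  set Z : ℕ → (ℕ → D.Γ) → W := fun s x =>
    (x v, fun k => if k ∈ E then ⌊(cf x k - s * β) / (N * β)⌋ else 0) with hZ
  set lab : ℕ → W → PN := fun s w => D.P v w.1 i + C (1 / Lam) *
    bind₁ (fun j => C ((2 : ℝ) ^ g j) * (X j - D.P v w.1 j))
      (pl E fun k => N * β * (w.2 k : ℝ) + s * β) with hlab
  have hcs : ∀ ω, D.cs v' ω v = D.c v ω := fun ω => by
    unfold NDat.cs
    rw [min_eq_left hvv]
  -- the value of the rounded label
  have hval : ∀ s x b, Bx g (D.P v (x v)) i b →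
      |eval b (lab s (Z s x)) - eval b (G x)| ≤ E.card * (N * β) / Lam := by
    intro s x b hb
    set a : ℕ → ℝ := fun j => (2 : ℝ) ^ g j * (b j - eval b (D.P v (x v) j)) with ha
    have ha1 : ∀ j < i, |a j| ≤ 1 := abs_nat hb
    have e1 : eval b (lab s (Z s x)) = eval b (D.P v (x v) i) + 1 / Lam *
        eval a (pl E fun k => N * β * ((Z s x).2 k : ℝ) + s * β) := by
      rw [hlab]
      simp only [map_add, map_mul, eval_C]
      congr 2
      rw [AdxRow.evl_bnd]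
      congr 1
      refine congrArg eval (funext fun j => ?_)
      rw [map_mul, eval_C, map_sub, eval_X]
    have e2 : eval b (G x) = eval b (D.P v (x v) i) + eval a (nb x) := by
      have h1 := eval_nat (htri (x v)) g (dif x) b
      have h2 : eval a (nb x) = eval b (dif x) := h1
      rw [h2, hdif]
      simp only [map_sub]
      ring
    set R : PN := pl E (fun k => N * β * ((Z s x).2 k : ℝ) + s * β) - C Lam * nb x with hR
    have hRs : R.support ⊆ E := by
      intro k hk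
      by_contra hkE
      rw [mem_support_iff, hR, coeff_sub, coeff_pl' _ hkE, coeff_C_mul,
        MvPolynomial.notMem_support_iff.mp (fun h => hkE (hns x h)), mul_zero, sub_zero] at hk
      exact hk rfl
    have hRc : ∀ k, |R.coeff k| ≤ N * β := by
      intro k
      by_cases hkE : k ∈ E
      · rw [hR, coeff_sub, coeff_pl _ hkE, coeff_C_mul, abs_sub_comm]
        have h1 : (Z s x).2 k = ⌊(cf x k - s * β) / (N * β)⌋ := by
          rw [hZ]
          simp only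
          rw [if_pos hkE]
        rw [h1]
        exact round_err hβ0 hN0
      · rw [MvPolynomial.notMem_support_iff.mp (fun h => hkE (hRs h)), abs_zero]
        positivity
    have h3 := eval_expo hRs (by positivity) hRc ha1
    have e3 : eval b (lab s (Z s x)) - eval b (G x) = 1 / Lam * eval a R := by
      rw [e1, e2, hR, map_sub, map_mul, eval_C]
      field_simp
      ring
    rw [e3, abs_mul, abs_of_pos (by positivity : 0 < 1 / Lam)]
    calc 1 / Lam * |eval a R| ≤ 1 / Lam * (E.card * (N * β)) :=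
          mul_le_mul_of_nonneg_left h3 (by positivity)
      _ = E.card * (N * β) / Lam := by ring
  -- the events
  set Ev : D.Ω → D.Ω → Prop := fun ω ω' =>
      |D.X ω i - eval (D.X ω) (G (D.cs v' ω))| ≤ 1 / 2 ^ (D.g v i + A * z) ∧
      |D.X ω' i - eval (D.X ω') (G (D.cs v' ω'))| ≤ 1 / 2 ^ (D.g v i + A * z) ∧
      (∀ b : ℕ → ℝ, Bx (D.g v) (D.P v (D.c v ω)) i b →
        |eval b (G (D.cs v' ω')) - eval b (G (D.cs v' ω))| ≤ 1 / 2 ^ (D.g v i + A * z)) ∧
      ∀ b : ℕ → ℝ, Bx (D.g v) (D.P v (D.c v ω)) i b →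
        |eval b (G (D.cs v' ω)) - eval b (D.P v (D.c v ω) i)| ≤
          Real.exp (C₆ * z) / 2 ^ D.g v i with hEv
  have hsame : ∀ ω ω', 0 < q ω → 0 < q ω' → D.wn J wi ω = D.wn J wi ω' →
      D.c v ω = D.c v ω' := fun ω ω' h1 h2 h3 => hcw ω ω' h1 h2 h3
  set Bs : ℕ → D.Ω → D.Ω → Prop := fun s ω ω' => Ev ω ω' ∧ ∀ k ∈ E,
    ⌊(cf (D.cs v' ω) k - s * β) / (N * β)⌋ =
      ⌊(cf (D.cs v' ω') k - s * β) / (N * β)⌋ with hBs
  obtain ⟨s, _, hs⟩ := shift (p := q) hq.nonneg (g := D.wn J wi) (A := Ev)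
    (B := Bs) (E := E.card) (N := N) (by omega) hN0 (by
    intro ω ω' h1 h2 h3 h4
    have h5 := hsame ω ω' h1 h2 h3
    have h6 : ∀ k ∈ E, |cf (D.cs v' ω) k - cf (D.cs v' ω') k| < β := by
      intro k _
      set F : PN := bind₁ (nuc g (D.P v (D.c v ω))) (G (D.cs v' ω) - G (D.cs v' ω')) with hF
      have e1 : cf (D.cs v' ω) k - cf (D.cs v' ω') k = Lam * F.coeff k := by
        rw [hcf, hnb, hdif, hF]
        simp only [hcs, ← h5]
        rw [← mul_sub, ← coeff_sub, ← map_sub]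
        congr 3
        ring
      have h7 := hC F (1 / Lam) (hbv _ _ (AdxRow.vars_sub_le (hGv _) (hGv _)))
        (hbd _ _ (AdxRow.vars_sub_le (hGv _) (hGv _)) ((totalDegree_sub _ _).trans
          (max_le ((hGd _).trans (le_max_right _ _)) ((hGd _).trans (le_max_right _ _)))))
        (fun a ha => by
          have h8 := h4.2.2.1 _ (bx_nuc (htri (D.c v ω)) g ha)
          rw [hF, AdxRow.evl_bnd, map_sub, abs_sub_comm]
          exact h8) k
      rw [e1, abs_mul, abs_of_pos hLam0]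
      calc Lam * |F.coeff k| ≤ Lam * (C₀ * (1 / Lam)) :=
            mul_le_mul_of_nonneg_left h7 hLam0.le
        _ = C₀ := by field_simp
        _ < β := by rw [hβ]; linarith
    refine ⟨_, few_bad (N := N) hβ0 _ _ h6, fun t ht ht' => ⟨h4, ?_⟩⟩
    by_contra hc
    exact ht' (Finset.mem_filter.2 ⟨mem_range.2 ht, hc⟩))
  obtain ⟨ω₀⟩ : Nonempty D.Ω := by
    by_contra hcon
    rw [not_nonempty_iff] at hcon
    have h1 := hq.sum_one
    rw [univ_eq_empty, sum_empty] at h1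
    exact zero_ne_one h1
  have : Nonempty W := ⟨Z 0 (D.cs v' ω₀)⟩
  set A' : D.Ω → Prop := fun ω =>
    |D.X ω i - eval (D.X ω) (G (D.cs v' ω))| ≤ 1 / 2 ^ (D.g v i + A * z) ∧
      ∀ b : ℕ → ℝ, Bx (D.g v) (D.P v (D.c v ω)) i b →
        |eval b (G (D.cs v' ω)) - eval b (D.P v (D.c v ω) i)| ≤
          Real.exp (C₆ * z) / 2 ^ D.g v i with hA'
  obtain ⟨ζ', hζ'⟩ := popular (p := q) hq.nonneg (D.wn J wi)
    (fun ω => Z s (D.cs v' ω)) A'
  have h1 : P2 q (D.wn J wi) (Bs s) ≤ P2 q (D.wn J wi)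
        (fun ω ω' => A' ω ∧ Z s (D.cs v' ω) = Z s (D.cs v' ω')) := by
    refine P2_le hq.nonneg fun ω ω' g1 g2 g3 g4 => ⟨⟨g4.1.1, g4.1.2.2.2⟩, ?_⟩
    rw [hZ]
    simp only [hcs]
    refine Prod.ext (hsame ω ω' g1 g2 g3) (funext fun k => ?_)
    by_cases hk : k ∈ E
    · simp only [if_pos hk]
      exact g4.2 k hk
    · simp only [if_neg hk]
  refine ⟨W, Z s, ζ', lab s, fun w => w.1, fun x => rfl, ?_, ?_, ?_⟩
  · intro w
    rw [hlab]
    refine (totalDegree_add _ _).trans (max_le ((hdeg _ _).trans (by omega)) ?_)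
    refine (totalDegree_mul _ _).trans ?_
    rw [totalDegree_C, zero_add]
    refine le_trans (deg_bind_le (vars_pl _) (deg_pl _) fun j _ => ?_) (Nat.le_add_left _ _)
    refine (totalDegree_mul _ _).trans ?_
    rw [totalDegree_C, zero_add]
    refine (totalDegree_sub _ _).trans (max_le ?_ ((hdeg _ _).trans (Nat.le_succ _)))
    rw [totalDegree_X]
    omega
  · intro w
    rw [hlab]
    refine AdxRow.vars_add_le (htri _ i) (AdxRow.vars_mul_le (AdxRow.vars_C_le _) ?_)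
    refine vars_bind_le (vars_pl _) fun j _ => ?_
    refine AdxRow.vars_mul_le (AdxRow.vars_C_le _) (AdxRow.vars_sub_le
      (AdxRow.vars_X_le (Nat.lt_succ_self _)) ((htri _ j).trans ?_))
    exact Finset.range_mono (Nat.le_succ _)
  · have h2 : η' / 2 ≤ Pb q (fun ω => A' ω ∧ Z s (D.cs v' ω) = ζ' (D.wn J wi ω)) := by
      have h3 : η' / 2 ≤ P2 q (D.wn J wi) Ev / 2 := by linarith
      exact h3.trans (hs.trans (h1.trans hζ'))
    refine h2.trans (Pb_mono hq.nonneg fun ω hω hE' => ?_)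
    obtain ⟨⟨g1, g2⟩, g3⟩ := hE'
    have hv0 := hval s (D.cs v' ω)
    rw [hcs] at hv0
    rw [← g3]
    refine ⟨rfl, ?_, fun b hb => ?_⟩
    · have hb : Bx g (D.P v (D.c v ω)) i (D.X ω) := fun j hj =>
        hhgt ω hω j (by omega)
      have h4 := hv0 _ hb
      have h5 : D.X ω i - eval (D.X ω) (lab s (Z s (D.cs v' ω))) =
          (D.X ω i - eval (D.X ω) (G (D.cs v' ω))) -
          (eval (D.X ω) (lab s (Z s (D.cs v' ω))) - eval (D.X ω) (G (D.cs v' ω))) := by ring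
      rw [h5]
      refine (abs_sub _ _).trans ?_
      rw [hC₇, add_div]
      exact add_le_add g1 h4
    · have h4 := hv0 b hb
      have h5 := g2 b hb
      have h6 : eval b (lab s (Z s (D.cs v' ω))) - eval b (D.P v (D.c v ω) i) =
          (eval b (lab s (Z s (D.cs v' ω))) - eval b (G (D.cs v' ω))) +
          (eval b (G (D.cs v' ω)) - eval b (D.P v (D.c v ω) i)) := by ring
      rw [h6]
      refine (abs_add_le _ _).trans ((add_le_add h4 h5).trans ?_)
      have h7 : E.card * (N * β) / Lam ≤ E.card * (N * β) * (1 / 2 ^ g i) := by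
        rw [div_eq_mul_one_div]
        exact mul_le_mul_of_nonneg_left hLg hEN
      have h8 : E.card * (N * β) * (1 / 2 ^ g i) ≤
          E.card * (N * β) * Real.exp (C₆ * z) * (1 / 2 ^ g i) := by
        refine mul_le_mul_of_nonneg_right ?_ (by positivity)
        exact le_mul_of_one_le_right hEN hexp
      calc E.card * (N * β) / Lam + Real.exp (C₆ * z) / 2 ^ D.g v i
          ≤ E.card * (N * β) * Real.exp (C₆ * z) * (1 / 2 ^ g i) +
            Real.exp (C₆ * z) / 2 ^ g i := add_le_add (h7.trans h8) le_rfl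
        _ = C₇ * Real.exp (C₆ * z) / 2 ^ g i := by
            rw [hC₇]
            ring

/-- **Row 123 EXL.** -/
theorem exl_thm : ExlStmt := by
  intro n K K' i hi
  obtain ⟨K'', C₇, hC₇, h⟩ := exl_core n K K' i hi
  refine ⟨K'', C₇, hC₇, ?_⟩
  intro J z M v v' A σ κ C₁ C₆ η' D q hOk hvv hvM hC₆ hNL
  exact h J z (v * z) v v' A C₆ η' D q hOk.isLaw (hOk.P_tri v) (hOk.P_deg v)
    (hOk.c_wn v (hvv.trans hvM)) (hOk.hgt v (hvv.trans hvM)) hvv hC₆ hNL

/-- **Row 123 EXL, in absolute units.** -/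
theorem exl0_thm : Exl0Stmt := by
  intro n K K' i hi
  obtain ⟨K'', C₇, hC₇, h⟩ := exl_core n K K' i hi
  refine ⟨K'', C₇, hC₇, ?_⟩
  intro J w₀ z M v v' A σ κ C₁ C₆ η' D q hOk hvv hvM hC₆ hNL
  exact h J z (w₀ + v * z) v v' A C₆ η' D q hOk.isLaw (hOk.P_tri v) (hOk.P_deg v)
    (hOk.c_wn v (hvv.trans hvM)) (hOk.hgt v (hvv.trans hvM)) hvv hC₆ hNL

end Pool.STAT
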